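import Pool.Agent.Helper56.RC.M_FIN

/-!
# Common lemmas for the modules G1, G2 of track A (MP_b21509)
-/

set_option autoImplicit false

open MeasureTheory Set Filter Metric

namespace Pool.Agent.Helper37.RC.Com

open Helper49.LT Helper49.RC Helper87.RC Helper44.RC Helper56.RC

theorem mB_le_one {β P : ℝ → ℂ} (h : Adm β P) (h1 : ∀ t, ‖β t‖ < 1) : mB β ≤ 1 := by
  have := mS_sq_le h h1
  have := sq_nonneg (mS β)
  linarith

theorem b1_le (β : ℝ → ℂ) : |b1 β| ≤ ‖fc β 0‖ := Complex.abs_re_le_norm _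

/-- Cauchy with weights -/
theorem cauchy_w {a b p1 p2 : ℝ} (h1 : 0 < p1) (h2 : 0 < p2) (h : p1 + p2 ≤ 1) :
    (a + b) ^ 2 ≤ a ^ 2 / p1 + b ^ 2 / p2 := by
  have e : a ^ 2 / p1 + b ^ 2 / p2 - (a + b) ^ 2 =
      ((p2 * a - p1 * b) ^ 2 + (1 - p1 - p2) * (p2 * a ^ 2 + p1 * b ^ 2)) / (p1 * p2) := by
    field_simp
    ring
  have : 0 ≤ a ^ 2 / p1 + b ^ 2 / p2 - (a + b) ^ 2 := by
    rw [e]
    have h3 : 0 ≤ 1 - p1 - p2 := by linarith
    positivity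
  linarith

/-- norm of a real combination -/
theorem norm_comb (p q : ℝ) (u w : ℂ) :
    ‖(p : ℂ) * u - (q : ℂ) * (starRingEnd ℂ) w‖ ^ 2 ≤ (|p| * ‖u‖ + |q| * ‖w‖) ^ 2 := by
  have h : ‖(p : ℂ) * u - (q : ℂ) * (starRingEnd ℂ) w‖ ≤ |p| * ‖u‖ + |q| * ‖w‖ := by
    refine (norm_sub_le _ _).trans ?_
    rw [norm_mul, norm_mul, Complex.norm_real, Complex.norm_real, Complex.norm_conj, Real.norm_eq_abs, Real.norm_eq_abs]
  exact pow_le_pow_left₀ (norm_nonneg _) h 2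

/-- the block inequality for `t = 2 k + 1 ≥ t0` -/
theorem blk_gen {ν D t t0 α γ A2 C2 p1 p2 e1 e2 : ℝ} (hν : 0 < ν) (ht : t0 ≤ t) (ht0 : 1 ≤ t0) (hD : 0 ≤ D)
    (he1 : 0 ≤ e1) (he2 : 0 ≤ e2) (hα : α ^ 2 ≤ A2) (hγ : γ ^ 2 ≤ C2) (hp1 : 0 < p1) (hp2 : 0 < p2)
    (h1 : A2 ≤ p1 * (8 * ν * D)) (h2 : (t0 + 2) * C2 ≤ p2 * (8 * ν * (t0 * D - e2))) (h3 : p1 + p2 ≤ 1)
    (u w : ℂ) :
    t * (t + 2) / (8 * ν) * ‖((α / (t + 2) : ℝ) : ℂ) * u - ((γ / t : ℝ) : ℂ) * (starRingEnd ℂ) w‖ ^ 2 ≤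
      (D + e1 / (t + 2)) * ‖u‖ ^ 2 + (D - e2 / t) * ‖w‖ ^ 2 := by
  have ht1 : 1 ≤ t := ht0.trans ht
  have htp : 0 < t := by linarith
  have ht2 : 0 < t + 2 := by linarith
  have hn := (norm_comb (α / (t + 2)) (γ / t) u w).trans (cauchy_w (a := |α / (t + 2)| * ‖u‖) (b := |γ / t| * ‖w‖) hp1 hp2 h3)
  have hT : 0 ≤ t * (t + 2) / (8 * ν) := by positivity
  refine (mul_le_mul_of_nonneg_left hn hT).trans ?_
  rw [mul_pow, mul_pow, sq_abs, sq_abs]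
  have e : t * (t + 2) / (8 * ν) * ((α / (t + 2)) ^ 2 * ‖u‖ ^ 2 / p1 + (γ / t) ^ 2 * ‖w‖ ^ 2 / p2)
      = (t / (t + 2) * (α ^ 2 / (8 * ν * p1))) * ‖u‖ ^ 2 + ((t + 2) / t * (γ ^ 2 / (8 * ν * p2))) * ‖w‖ ^ 2 := by
    field_simp
  rw [e]
  have k1 : t / (t + 2) * (α ^ 2 / (8 * ν * p1)) ≤ D + e1 / (t + 2) := by
    have a1 : t / (t + 2) ≤ 1 := by rw [div_le_one ht2]; linarith
    have a2 : α ^ 2 / (8 * ν * p1) ≤ D := by
      rw [div_le_iff₀ (by positivity)]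
      linarith
    have a3 : 0 ≤ e1 / (t + 2) := by positivity
    have a4 : 0 ≤ α ^ 2 / (8 * ν * p1) := by positivity
    have a5 := mul_le_mul a1 a2 a4 zero_le_one
    linarith
  have k2 : (t + 2) / t * (γ ^ 2 / (8 * ν * p2)) ≤ D - e2 / t := by
    have b1 : (t + 2) * (t0 * D - e2) ≤ (t0 + 2) * (t * D - e2) := by nlinarith
    have b2 : (t0 + 2) * γ ^ 2 ≤ p2 * (8 * ν * (t0 * D - e2)) :=
      (mul_le_mul_of_nonneg_left hγ (by linarith)).trans h2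
    have b3 : (t + 2) * γ ^ 2 ≤ (t * D - e2) * (8 * ν * p2) := by
      have b4 : (t0 + 2) * ((t + 2) * γ ^ 2) ≤ (t0 + 2) * ((t * D - e2) * (8 * ν * p2)) := by
        calc (t0 + 2) * ((t + 2) * γ ^ 2) = (t + 2) * ((t0 + 2) * γ ^ 2) := by ring
          _ ≤ (t + 2) * (p2 * (8 * ν * (t0 * D - e2))) := mul_le_mul_of_nonneg_left b2 ht2.le
          _ = (8 * ν * p2) * ((t + 2) * (t0 * D - e2)) := by ring
          _ ≤ (8 * ν * p2) * ((t0 + 2) * (t * D - e2)) := mul_le_mul_of_nonneg_left b1 (by positivity)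
          _ = (t0 + 2) * ((t * D - e2) * (8 * ν * p2)) := by ring
      exact le_of_mul_le_mul_left b4 (by linarith)
    have e2' : (t + 2) / t * (γ ^ 2 / (8 * ν * p2)) = ((t + 2) * γ ^ 2) / (t * (8 * ν * p2)) := by
      field_simp
    have e3 : D - e2 / t = ((t * D - e2) * (8 * ν * p2)) / (t * (8 * ν * p2)) := by
      field_simp
    rw [e2', e3]
    exact div_le_div_of_nonneg_right b3 (by positivity)
  exact add_le_add (mul_le_mul_of_nonneg_right k1 (by positivity)) (mul_le_mul_of_nonneg_right k2 (by positivity))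

/-- summation of block inequalities with a bonus at `k = 0` -/
theorem sum_blk {Q E : ℕ → ℝ} (hQ : Summable Q) (hE : Summable E) (lam c R : ℝ)
    (h : ∀ k, lam * E k + (if k = 0 then R else 0) ≤ Q k + c * E k) :
    lam * (∑' k, E k) + R ≤ (∑' k, Q k) + c * ∑' k, E k := by
  have h1 : HasSum (fun k : ℕ => if k = 0 then R else 0) R := hasSum_ite_eq 0 R
  have h2 : HasSum (fun k => lam * E k + (if k = 0 then R else 0)) (lam * (∑' k, E k) + R) :=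
    (hE.hasSum.mul_left lam).add h1
  have h3 : HasSum (fun k => Q k + c * E k) ((∑' k, Q k) + c * ∑' k, E k) :=
    hQ.hasSum.add (hE.hasSum.mul_left c)
  exact hasSum_le h h2 h3

theorem s3_lo : (1.7320508 : ℝ) ≤ Real.sqrt 3 := by
  apply Real.le_sqrt_of_sq_le; norm_num

theorem s3_hi : Real.sqrt 3 ≤ 1.7320509 := by
  rw [Real.sqrt_le_left (by norm_num)]; norm_num

theorem s3_sq : Real.sqrt 3 ^ 2 = 3 := Real.sq_sqrt (by norm_num)

theorem tt (k : ℕ) : (2 * (k : ℝ) + 2) ^ 2 - 1 = (2 * k + 1) * ((2 * k + 1) + 2) := by ring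

end Pool.Agent.Helper37.RC.Com
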