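import Pool.Agent.Helper37.RC.M_G2

/-!
# Module G1 of track A (MP_b21509): the regime `mB ≥ 1/10`, `S ≤ 1/5`
-/

set_option autoImplicit false

open MeasureTheory Set Filter Metric

namespace Pool.Agent.Helper37.RC.G1

open Helper49.LT Helper49.RC Helper87.RC Helper44.RC Helper56.RC Pool.Agent.Helper37.RC.Com
open Pool.Agent.Helper37.RC.G2

theorem TW0 (β P : ℝ → ℂ) (q : ℤ) (z : ℂ) : TW β P 0 0 q z = 0 := by
  unfold TW KK RR
  simp

theorem gam_bd (n : ℤ) : 0 ≤ gam 0 0 n ∧ gam 0 0 n ≤ 1 := by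
  unfold Helper56.RC.gam
  simp only [mul_zero, add_zero, Real.cos_zero, mul_one]
  have h1 := Real.neg_one_le_cos (2 * Real.pi * (n + 1) / 3)
  have h2 := Real.cos_le_one (2 * Real.pi * (n + 1) / 3)
  constructor <;> linarith

theorem sgm_bd (n : ℤ) : 0 ≤ sgm 0 0 n ∧ sgm 0 0 n ≤ 1 := by
  unfold sgm
  simp only [mul_zero, add_zero, Real.cos_zero, mul_one]
  have h1 := Real.neg_one_le_cos (2 * n * (Real.pi / 3))
  have h2 := Real.cos_le_one (2 * n * (Real.pi / 3))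
  constructor <;> linarith

theorem sgm_2 : sgm 0 0 2 = 3 / 4 := by
  unfold sgm
  simp only [mul_zero, add_zero, Real.cos_zero, mul_one]
  have e : (2 * ((2 : ℤ) : ℝ) * (Real.pi / 3)) = Real.pi / 3 + Real.pi := by push_cast; ring
  rw [e, Real.cos_add_pi, Real.cos_pi_div_three]; norm_num

theorem sgm_4 : sgm 0 0 4 = 3 / 4 := by
  unfold sgm
  simp only [mul_zero, add_zero, Real.cos_zero, mul_one]
  have e : (2 * ((4 : ℤ) : ℝ) * (Real.pi / 3)) = (Real.pi - Real.pi / 3) + 2 * Real.pi := by push_cast; ring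
  rw [e, Real.cos_add_two_pi, Real.cos_pi_sub, Real.cos_pi_div_three]; norm_num

/-- the coefficient `4 σ_{2k+2}/(2k+2)` -/
noncomputable def cc (k : ℕ) : ℝ := 4 * sgm 0 0 (2 * k + 2) / (2 * k + 2)

theorem cc_0 : cc 0 = 3 / 2 := by
  unfold cc
  have : sgm 0 0 (2 * ((0 : ℕ) : ℤ) + 2) = 3 / 4 := sgm_2
  rw [this]; norm_num

theorem cc_1 : cc 1 = 3 / 4 := by
  unfold cc
  have : sgm 0 0 (2 * ((1 : ℕ) : ℤ) + 2) = 3 / 4 := sgm_4
  rw [this]; norm_num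

theorem cc_nonneg (k : ℕ) : 0 ≤ cc k := by
  unfold cc
  have := (sgm_bd (2 * (k : ℤ) + 2)).1
  positivity

theorem cc_le (k : ℕ) : cc k ≤ 4 / (2 * k + 2) := by
  unfold cc
  have := (sgm_bd (2 * (k : ℤ) + 2)).2
  apply div_le_div_of_nonneg_right _ (by positivity)
  linarith

theorem cc_le2 (k : ℕ) : cc k ≤ 2 := by
  refine (cc_le k).trans ?_
  rw [div_le_iff₀ (by positivity)]
  have : (0 : ℝ) ≤ k := Nat.cast_nonneg k
  linarith

theorem cc_le1 {k : ℕ} (hk : 1 ≤ k) : cc k ≤ 1 := by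
  refine (cc_le k).trans ?_
  rw [div_le_one (by positivity)]
  have : (1 : ℝ) ≤ k := by exact_mod_cast hk
  linarith

/-- a binary form -/
theorem form_nonneg {a b g x y R : ℝ} (ha : 0 < a) (hab : g ^ 2 ≤ 4 * (a * b)) (hR : |R| ≤ x * y)
    (hx : 0 ≤ x) (hy : 0 ≤ y) : 0 ≤ a * x ^ 2 + b * y ^ 2 + g * R := by
  have h1 : -(|g| * (x * y)) ≤ g * R := by
    have : |g * R| ≤ |g| * (x * y) := by rw [abs_mul]; exact mul_le_mul_of_nonneg_left hR (abs_nonneg _)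
    exact (abs_le.mp this).1
  have h2 : 0 ≤ a * (a * x ^ 2 + b * y ^ 2 - |g| * (x * y)) := by
    have e : a * (a * x ^ 2 + b * y ^ 2 - |g| * (x * y)) = (a * x - |g| / 2 * y) ^ 2 + (4 * (a * b) - g ^ 2) / 4 * y ^ 2 := by
      have := sq_abs g
      linear_combination (-(1 / 4) * y ^ 2) * this
    rw [e]
    have : 0 ≤ 4 * (a * b) - g ^ 2 := by linarith
    positivity
  have h3 := nonneg_of_mul_nonneg_right h2 ha
  linarith

theorem v_pair (k : ℕ) (v v' : ℂ) :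
    0 ≤ 1833 / 1000 * (1 / 2 * (‖v‖ ^ 2 + ‖v'‖ ^ 2) + 1 / 2 * (v * v').re) + 1 / 2 * (cc k * ‖v‖ ^ 2)
      - 1 / 2 * (if k = 0 then 0 else cc (k - 1) * ‖v'‖ ^ 2) := by
  have hR := re_le v v'
  have hx := norm_nonneg v
  have hy := norm_nonneg v'
  have hc := cc_nonneg k
  rcases Nat.lt_or_ge k 2 with hk | hk
  · interval_cases k
    · rw [if_pos rfl]
      have := form_nonneg (a := 1833 / 2000) (b := 1833 / 2000) (g := 1833 / 2000) (by norm_num) (by norm_num) hR hx hy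
      have : 0 ≤ 1 / 2 * (cc 0 * ‖v‖ ^ 2) := by positivity
      linarith
    · rw [if_neg (by norm_num), cc_1]
      rw [show 1 - 1 = 0 from rfl, cc_0]
      have := form_nonneg (a := 1833 / 2000 + 3 / 8) (b := 1833 / 2000 - 3 / 4) (g := 1833 / 2000) (by norm_num) (by norm_num) hR hx hy
      linarith
  · rw [if_neg (by omega)]
    have h1 := cc_le1 (k := k - 1) (by omega)
    have := form_nonneg (a := 1833 / 2000) (b := 1833 / 2000 - 1 / 2) (g := 1833 / 2000) (by norm_num) (by norm_num) hR hx hy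
    have h2 : 0 ≤ 1 / 2 * (cc k * ‖v‖ ^ 2) := by positivity
    have h3 : cc (k - 1) * ‖v'‖ ^ 2 ≤ 1 * ‖v'‖ ^ 2 := mul_le_mul_of_nonneg_right h1 (by positivity)
    linarith

/-- the terms of `v` -/
theorem v_sum {β P : ℝ → ℂ} (h₃ : StPar) (hA : Adm β P) (h1 : ∀ t, ‖β t‖ < 1) :
    -(1833 / 1000 * qP P) ≤ 1 / 2 * ∑' k : ℕ, 4 * sgm 0 0 (2 * k + 2) / (2 * k + 2) * (‖cp P k‖ ^ 2 - ‖cm P (k + 1)‖ ^ 2) := by
  obtain ⟨-, -, hs, -, hq⟩ := h₃ β P hA h1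
  have ha : Summable fun k : ℕ => ‖cp P k‖ ^ 2 :=
    Summable.of_nonneg_of_le (fun k => by positivity) (fun k => by have := sq_nonneg ‖cm P k‖; linarith) hs
  have hb : Summable fun k : ℕ => ‖cm P k‖ ^ 2 :=
    Summable.of_nonneg_of_le (fun k => by positivity) (fun k => by have := sq_nonneg ‖cp P k‖; linarith) hs
  have hca : Summable fun k : ℕ => cc k * ‖cp P k‖ ^ 2 :=
    Summable.of_nonneg_of_le (fun k => mul_nonneg (cc_nonneg k) (by positivity))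
      (fun k => mul_le_mul_of_nonneg_right (cc_le2 k) (by positivity)) (ha.mul_left 2)
  have hb1 : Summable fun k : ℕ => ‖cm P (k + 1)‖ ^ 2 := (summable_nat_add_iff 1).mpr hb
  have hcb : Summable fun k : ℕ => cc k * ‖cm P (k + 1)‖ ^ 2 :=
    Summable.of_nonneg_of_le (fun k => mul_nonneg (cc_nonneg k) (by positivity))
      (fun k => mul_le_mul_of_nonneg_right (cc_le2 k) (by positivity)) (hb1.mul_left 2)
  set f : ℕ → ℝ := fun k => if k = 0 then 0 else cc (k - 1) * ‖cm P k‖ ^ 2 with hf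
  have hf1 : (fun k => f (k + 1)) = fun k : ℕ => cc k * ‖cm P (k + 1)‖ ^ 2 := by
    funext k; simp [hf]
  have hfs : Summable f := (summable_nat_add_iff 1).mp (by rw [hf1]; exact hcb)
  have hft : ∑' k, f k = ∑' k : ℕ, cc k * ‖cm P (k + 1)‖ ^ 2 := by
    rw [hfs.tsum_eq_zero_add, hf1]; simp [hf]
  have hre : Summable fun k : ℕ => 1 / 2 * (‖cp P k‖ ^ 2 + ‖cm P k‖ ^ 2) + 1 / 2 * (cp P k * cm P k).re := by
    refine Summable.of_nonneg_of_le (fun k => ?_) (fun k => ?_) hs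
    · have a := (abs_le.1 (re_le (cp P k) (cm P k))).1
      nlinarith [sq_nonneg (‖cp P k‖ - ‖cm P k‖)]
    · have a := (abs_le.1 (re_le (cp P k) (cm P k))).2
      nlinarith [sq_nonneg (‖cp P k‖ - ‖cm P k‖)]
  have e1 : (∑' k : ℕ, 4 * sgm 0 0 (2 * k + 2) / (2 * k + 2) * (‖cp P k‖ ^ 2 - ‖cm P (k + 1)‖ ^ 2))
      = (∑' k : ℕ, cc k * ‖cp P k‖ ^ 2) - ∑' k, f k := by
    rw [hft, ← hca.tsum_sub hcb]
    apply tsum_congr
    intro k
    change cc k * (‖cp P k‖ ^ 2 - ‖cm P (k + 1)‖ ^ 2) = _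
    ring
  rw [e1, hq]
  have h2 : 0 ≤ ∑' k : ℕ, (1833 / 1000 * (1 / 2 * (‖cp P k‖ ^ 2 + ‖cm P k‖ ^ 2) + 1 / 2 * (cp P k * cm P k).re)
      + 1 / 2 * (cc k * ‖cp P k‖ ^ 2) - 1 / 2 * f k) := tsum_nonneg fun k => v_pair k (cp P k) (cm P k)
  rw [((hre.mul_left _).add (hca.mul_left _)).tsum_sub (hfs.mul_left _), (hre.mul_left _).tsum_add (hca.mul_left _),
    tsum_mul_left, tsum_mul_left, tsum_mul_left] at h2
  linarith

/-- the block inequality with the extra term of `rB` -/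
theorem blkG {t t0 α γ A2 C2 X e1 e2 : ℝ} (ht : t0 ≤ t) (ht0 : 1 ≤ t0) (he1 : 0 ≤ e1) (he2 : 0 ≤ e2)
    (hα : α ^ 2 ≤ A2) (hγ : γ ^ 2 ≤ C2) (hX : |39 / 20 - α * γ| ≤ X)
    (hd1 : 0 < 591 / 100 - (39 / 20 + A2) / 4)
    (hd : X ^ 2 ≤ 16 * ((591 / 100 - (39 / 20 + A2) / 4) * (591 / 100 - e2 / t0 - (39 / 20 + (1 + 2 / t0) * C2) / 4)))
    (u w : ℂ) :
    t * (t + 2) / (8 * (1 / 2)) * ‖((α / (t + 2) : ℝ) : ℂ) * u - ((γ / t : ℝ) : ℂ) * (starRingEnd ℂ) w‖ ^ 2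
      + 39 / 80 * ‖u + (starRingEnd ℂ) w‖ ^ 2 ≤
      (591 / 100 + e1 / (t + 2)) * ‖u‖ ^ 2 + (591 / 100 - e2 / t) * ‖w‖ ^ 2 := by
  have ht1 : 1 ≤ t := ht0.trans ht
  have htp : 0 < t := by linarith
  have ht0p : 0 < t0 := by linarith
  have ht2 : 0 < t + 2 := by linarith
  have e1' : ((α / (t + 2) : ℝ) : ℂ) * u - ((γ / t : ℝ) : ℂ) * (starRingEnd ℂ) w
      = ((α / (t + 2) : ℝ) : ℂ) * u + ((-(γ / t) : ℝ) : ℂ) * (starRingEnd ℂ) w := by push_cast; ring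
  have e2' : u + (starRingEnd ℂ) w = ((1 : ℝ) : ℂ) * u + ((1 : ℝ) : ℂ) * (starRingEnd ℂ) w := by push_cast; ring
  rw [e1', e2', normsq_comb, normsq_comb]
  have hR := re_le u w
  set R := (u * w).re
  set x := ‖u‖
  set y := ‖w‖
  have hx : 0 ≤ x := norm_nonneg _
  have hy : 0 ≤ y := norm_nonneg _
  have hA0 : 0 ≤ A2 := (sq_nonneg α).trans hα
  have hC0 : 0 ≤ C2 := (sq_nonneg γ).trans hγ
  have hX0 : 0 ≤ X := (abs_nonneg _).trans hX
  have hT : t * (t + 2) / (8 * (1 / 2)) * ((α / (t + 2)) ^ 2 * x ^ 2 + (-(γ / t)) ^ 2 * y ^ 2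
      + 2 * (α / (t + 2)) * (-(γ / t)) * R) = t / (t + 2) * (α ^ 2 / 4) * x ^ 2 + (1 + 2 / t) * (γ ^ 2 / 4) * y ^ 2
        - α * γ / 2 * R := by
    field_simp
    ring
  rw [hT]
  have k1 : t / (t + 2) * (α ^ 2 / 4) ≤ A2 / 4 := by
    have a1 : t / (t + 2) ≤ 1 := by rw [div_le_one ht2]; linarith
    have a2 := mul_le_mul a1 (show α ^ 2 / 4 ≤ A2 / 4 by linarith) (by positivity) zero_le_one
    linarith
  have k2 : (1 + 2 / t) * (γ ^ 2 / 4) ≤ (1 + 2 / t0) * (C2 / 4) := by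
    have a1 : 2 / t ≤ 2 / t0 := div_le_div_of_nonneg_left (by norm_num) ht0p ht
    exact mul_le_mul (by linarith) (by linarith) (by positivity) (by positivity)
  have k3 : e2 / t ≤ e2 / t0 := div_le_div_of_nonneg_left he2 ht0p ht
  have k4 : 0 ≤ e1 / (t + 2) := by positivity
  have hf := form_nonneg (a := 591 / 100 - (39 / 20 + A2) / 4) (b := 591 / 100 - e2 / t0 - (39 / 20 + (1 + 2 / t0) * C2) / 4)
    (g := X / 2) (x := x) (y := y) (R := -(x * y)) hd1 (by nlinarith) (by rw [abs_neg, abs_of_nonneg (mul_nonneg hx hy)]) hx hy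
  have hg : -(X / 2 * (x * y)) ≤ -((39 / 40 - α * γ / 2) * R) := by
    have : |(39 / 40 - α * γ / 2) * R| ≤ X / 2 * (x * y) := by
      rw [abs_mul]
      have e : 39 / 40 - α * γ / 2 = (39 / 20 - α * γ) / 2 := by ring
      rw [e, abs_div, abs_two]
      exact mul_le_mul (by linarith) hR (abs_nonneg _) (by positivity)
    have := (abs_le.mp this).2
    linarith
  have m1 := mul_le_mul_of_nonneg_right k1 (sq_nonneg x)
  have m2 := mul_le_mul_of_nonneg_right k2 (sq_nonneg y)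
  have m3 := mul_le_mul_of_nonneg_right k3 (sq_nonneg y)
  have m4 := mul_nonneg k4 (sq_nonneg x)
  nlinarith

theorem blk_k1 {k : ℕ} {t0 α γ A2 C2 X : ℝ} (hk0 : k ≠ 0) (ht : t0 ≤ 2 * (k : ℝ) + 1) (ht0 : 1 ≤ t0)
    (hα : α = gg (1 / 2) k + 1 / 2 * chu k) (hγ : γ = gg (1 / 2) k + 1 / 2 * chw k)
    (hα2 : α ^ 2 ≤ A2) (hγ2 : γ ^ 2 ≤ C2) (hX : |39 / 20 - α * γ| ≤ X)
    (hd1 : 0 < 591 / 100 - (39 / 20 + A2) / 4)
    (hd : X ^ 2 ≤ 16 * ((591 / 100 - (39 / 20 + A2) / 4) * (591 / 100 - 3 / t0 - (39 / 20 + (1 + 2 / t0) * C2) / 4)))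
    (u w : ℂ) :
    3 * (‖u‖ ^ 2 + ‖w‖ ^ 2) ≤ (QB (1 / 2) (1 / 2) 0 0 k u w - 39 / 80 * ‖u + (starRingEnd ℂ) w‖ ^ 2)
      + 891 / 100 * (‖u‖ ^ 2 + ‖w‖ ^ 2) := by
  have h := blkG (e1 := 1) (e2 := 3) ht ht0 zero_le_one (by norm_num) hα2 hγ2 hX hd1 hd u w
  unfold QB
  rw [if_neg hk0, tt, ← hα, ← hγ]
  have e3 : (2 * (k : ℝ) + 1) + 2 = 2 * k + 3 := by ring
  rw [e3] at h ⊢
  have hg1 := (gam_bd (2 * (k : ℤ) + 3)).1
  have hg2 := (gam_bd (-(2 * (k : ℤ) + 1))).2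
  have h23 : (0 : ℝ) < 2 * k + 3 := by positivity
  have h21 : (0 : ℝ) < 2 * k + 1 := by positivity
  have c1 : 1 / (2 * (k : ℝ) + 3) ≤ 1 / (2 * k + 3) + (1 - 1 / 2) * (4 * gam 0 0 (2 * (k : ℤ) + 3) / (2 * k + 3)) := by
    have : 0 ≤ (1 - 1 / 2) * (4 * gam 0 0 (2 * (k : ℤ) + 3) / (2 * k + 3)) := by positivity
    linarith
  have c2 : 1 / (2 * (k : ℝ) + 1) + (1 - 1 / 2) * (4 * gam 0 0 (-(2 * (k : ℤ) + 1)) / (2 * k + 1)) ≤ 3 / (2 * k + 1) := by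
    have : 4 * gam 0 0 (-(2 * (k : ℤ) + 1)) / (2 * (k : ℝ) + 1) ≤ 4 / (2 * k + 1) :=
      div_le_div_of_nonneg_right (by linarith) h21.le
    have e : 3 / (2 * (k : ℝ) + 1) = 1 / (2 * k + 1) + (1 - 1 / 2) * (4 / (2 * k + 1)) := by
      field_simp; norm_num
    rw [e]; linarith
  have m1 := mul_le_mul_of_nonneg_right c1 (sq_nonneg ‖u‖)
  have m2 := mul_le_mul_of_nonneg_right c2 (sq_nonneg ‖w‖)
  linarith

theorem blk_pos1 (k : ℕ) (hk0 : k ≠ 0) (u w : ℂ) :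
    3 * (‖u‖ ^ 2 + ‖w‖ ^ 2) ≤ (QB (1 / 2) (1 / 2) 0 0 k u w - 39 / 80 * ‖u + (starRingEnd ℂ) w‖ ^ 2)
      + 891 / 100 * (‖u‖ ^ 2 + ‖w‖ ^ 2) := by
  have h3 := s3_sq
  have hl := s3_lo
  have hh := s3_hi
  have hr : k % 6 = 0 ∨ k % 6 = 1 ∨ k % 6 = 2 ∨ k % 6 = 3 ∨ k % 6 = 4 ∨ k % 6 = 5 := by omega
  rcases hr with h | h | h | h | h | h
  · have hk : 6 ≤ k := by omega
    have hk' : (6 : ℝ) ≤ k := by exact_mod_cast hk
    refine blk_k1 (t0 := 13) (α := 2 + 1 / 2 * Real.sqrt 3 + 1 / 2 * (-1)) (γ := 2 + 1 / 2 * Real.sqrt 3 + 1 / 2 * 2) (A2 := 5.599)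
      (C2 := 14.947) (X := 7.2) hk0 (by linarith) (by norm_num) ?_ ?_ (by nlinarith) (by nlinarith)
      (by rw [abs_le]; constructor <;> nlinarith) (by norm_num) (by norm_num) u w
    · rw [gg_even _ (by omega), chu_m (by omega)]
    · rw [gg_even _ (by omega), chw_2 (by omega)]
  · have hk : 1 ≤ k := by omega
    have hk' : (1 : ℝ) ≤ k := by exact_mod_cast hk
    refine blk_k1 (t0 := 3) (α := 2 - 1 / 2 * Real.sqrt 3 + 1 / 2 * 2) (γ := 2 - 1 / 2 * Real.sqrt 3 + 1 / 2 * (-1)) (A2 := 4.56)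
      (C2 := 0.403) (X := 1) hk0 (by linarith) (by norm_num) ?_ ?_ (by nlinarith) (by nlinarith)
      (by rw [abs_le]; constructor <;> nlinarith) (by norm_num) (by norm_num) u w
    · rw [gg_odd _ (by omega), chu_2 (by omega)]
    · rw [gg_odd _ (by omega), chw_m (by omega)]
  · have hk : 2 ≤ k := by omega
    have hk' : (2 : ℝ) ≤ k := by exact_mod_cast hk
    refine blk_k1 (t0 := 5) (α := 2 + 1 / 2 * Real.sqrt 3 + 1 / 2 * (-1)) (γ := 2 + 1 / 2 * Real.sqrt 3 + 1 / 2 * (-1)) (A2 := 5.599)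
      (C2 := 5.599) (X := 3.7) hk0 (by linarith) (by norm_num) ?_ ?_ (by nlinarith) (by nlinarith)
      (by rw [abs_le]; constructor <;> nlinarith) (by norm_num) (by norm_num) u w
    · rw [gg_even _ (by omega), chu_m (by omega)]
    · rw [gg_even _ (by omega), chw_m (by omega)]
  · have hk : 3 ≤ k := by omega
    have hk' : (3 : ℝ) ≤ k := by exact_mod_cast hk
    refine blk_k1 (t0 := 7) (α := 2 - 1 / 2 * Real.sqrt 3 + 1 / 2 * (-1)) (γ := 2 - 1 / 2 * Real.sqrt 3 + 1 / 2 * 2) (A2 := 0.403)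
      (C2 := 4.56) (X := 1) hk0 (by linarith) (by norm_num) ?_ ?_ (by nlinarith) (by nlinarith)
      (by rw [abs_le]; constructor <;> nlinarith) (by norm_num) (by norm_num) u w
    · rw [gg_odd _ (by omega), chu_m (by omega)]
    · rw [gg_odd _ (by omega), chw_2 (by omega)]
  · have hk : 4 ≤ k := by omega
    have hk' : (4 : ℝ) ≤ k := by exact_mod_cast hk
    refine blk_k1 (t0 := 9) (α := 2 + 1 / 2 * Real.sqrt 3 + 1 / 2 * 2) (γ := 2 + 1 / 2 * Real.sqrt 3 + 1 / 2 * (-1)) (A2 := 14.947)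
      (C2 := 5.599) (X := 7.2) hk0 (by linarith) (by norm_num) ?_ ?_ (by nlinarith) (by nlinarith)
      (by rw [abs_le]; constructor <;> nlinarith) (by norm_num) (by norm_num) u w
    · rw [gg_even _ (by omega), chu_2 (by omega)]
    · rw [gg_even _ (by omega), chw_m (by omega)]
  · have hk : 5 ≤ k := by omega
    have hk' : (5 : ℝ) ≤ k := by exact_mod_cast hk
    refine blk_k1 (t0 := 11) (α := 2 - 1 / 2 * Real.sqrt 3 + 1 / 2 * (-1)) (γ := 2 - 1 / 2 * Real.sqrt 3 + 1 / 2 * (-1)) (A2 := 0.403)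
      (C2 := 0.403) (X := 2) hk0 (by linarith) (by norm_num) ?_ ?_ (by nlinarith) (by nlinarith)
      (by rw [abs_le]; constructor <;> nlinarith) (by norm_num) (by norm_num) u w
    · rw [gg_odd _ (by omega), chu_m (by omega)]
    · rw [gg_odd _ (by omega), chw_m (by omega)]

theorem blk_zero1 (u w : ℂ) :
    7 * ‖u‖ ^ 2 + 555 / 100 * ‖w‖ ^ 2 ≤ (QB (1 / 2) (1 / 2) 0 0 0 u w - 39 / 80 * ‖u + (starRingEnd ℂ) w‖ ^ 2)
      + 891 / 100 * (‖u‖ ^ 2 + ‖w‖ ^ 2) := by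
  have h3 := s3_sq
  have hl := s3_lo
  have hh := s3_hi
  have hg : gg (1 / 2) 0 = 2 + 1 / 2 * Real.sqrt 3 := gg_even _ rfl
  have hg1 := (gam_bd (2 * ((0 : ℕ) : ℤ) + 3)).1
  have hg2 := (gam_bd (-(2 * ((0 : ℕ) : ℤ) + 1))).2
  unfold QB
  rw [if_pos rfl, hg]
  have e1 : (3 / 2 : ℂ) * (starRingEnd ℂ) w - (1 / 2 : ℂ) * u = ((-(1 / 2) : ℝ) : ℂ) * u + ((3 / 2 : ℝ) : ℂ) * (starRingEnd ℂ) w := by
    push_cast; ring
  have e2 : u + (starRingEnd ℂ) w = ((1 : ℝ) : ℂ) * u + ((1 : ℝ) : ℂ) * (starRingEnd ℂ) w := by push_cast; ring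
  rw [e1, e2, normsq_comb, normsq_comb, normsq_comb]
  have hr := re_le u w
  set g1 := Helper56.RC.gam 0 0 (2 * ((0 : ℕ) : ℤ) + 3) with hg1'
  set g2 := Helper56.RC.gam 0 0 (-(2 * ((0 : ℕ) : ℤ) + 1)) with hg2'
  set R := (u * w).re with hR
  set s := Real.sqrt 3 with hs
  set x := ‖u‖ with hx
  set y := ‖w‖ with hy
  have hx0 : 0 ≤ x := norm_nonneg _
  have hy0 : 0 ≤ y := norm_nonneg _
  have m1 : 0 ≤ g1 * x ^ 2 := mul_nonneg hg1 (sq_nonneg x)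
  have m2 : g2 * y ^ 2 ≤ 1 * y ^ 2 := mul_le_mul_of_nonneg_right hg2 (sq_nonneg y)
  -- coefficients
  have c1 : (1 / 4 * ((s / 2 - 1 / 2) / 3) ^ 2 : ℝ) ≤ 4 / 1000 := by nlinarith
  have c2 : (1 / 4 * (-1 - s / 2) ^ 2 : ℝ) ≤ 871 / 1000 := by nlinarith
  have c3 : |(-1 - 1 / 4 * (2 * ((s / 2 - 1 / 2) / 3) * (-1 - s / 2)) - 39 / 40 : ℝ)| ≤ 187 / 100 := by
    rw [abs_le]; constructor <;> nlinarith
  have hf := form_nonneg (a := 1918 / 1000) (b := 50 / 100)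
    (g := (-1 - 1 / 4 * (2 * ((s / 2 - 1 / 2) / 3) * (-1 - s / 2)) - 39 / 40)) (x := x) (y := y) (R := R) (by norm_num)
    (by
      have h := pow_le_pow_left₀ (abs_nonneg _) c3 2
      rw [sq_abs] at h
      refine h.trans (by norm_num)) hr hx0 hy0
  have d1 := mul_le_mul_of_nonneg_right c1 (sq_nonneg x)
  have d2 := mul_le_mul_of_nonneg_right c2 (sq_nonneg y)
  simp only [Nat.cast_zero, mul_zero, zero_add]
  nlinarith [hf, d1, d2, m1, m2, sq_nonneg x, sq_nonneg y]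

theorem blk_all1 (k : ℕ) (u w : ℂ) :
    3 * (‖u‖ ^ 2 + ‖w‖ ^ 2) + (if k = 0 then 4 * ‖u‖ ^ 2 + 255 / 100 * ‖w‖ ^ 2 else 0)
      ≤ (QB (1 / 2) (1 / 2) 0 0 k u w - 39 / 80 * ‖u + (starRingEnd ℂ) w‖ ^ 2) + 891 / 100 * (‖u‖ ^ 2 + ‖w‖ ^ 2) := by
  by_cases hk : k = 0
  · subst hk
    rw [if_pos rfl]
    have := blk_zero1 u w
    linarith
  · rw [if_neg hk, add_zero]
    exact blk_pos1 k hk u w

/-- the scalar inequality -/
theorem scal1 {S x m y0 x1 u w : ℝ} (hm1 : 1 / 10 ≤ m) (hm2 : m ≤ 1) (hS1 : -(m / 2) ≤ S) (hS2 : S ≤ 1 / 5)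
    (hx : |x1| ≤ y0) (hy : y0 ^ 2 ≤ m) (hs : x = Real.sqrt 3) :
    0 ≤ (5 + x + 2 - 891 / 100) + (2 + 1 / 2 * x - 1) * S - 1 / 2 * S ^ 2 + (2 - 1 / 2 * x + 1 / 2) * S * x1
      - 39 / 20 * S + (4 - 3 / 2 * x - 2) * x1 - (2 - 1 / 2 * x + 39 / 40) * x1 ^ 2 + 991 / 100 * y0 ^ 2
      + 3 * (m - y0 ^ 2) + 4 * u ^ 2 + 255 / 100 * w ^ 2 - m * (487 / 100 * w + 113 / 100 * u) := by
  have hl := s3_lo
  have hh := s3_hi
  rw [← hs] at hl hh
  have hx2 : x1 ^ 2 ≤ y0 ^ 2 := by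
    rw [← sq_abs x1]; exact pow_le_pow_left₀ (abs_nonneg _) hx 2
  have q1 : -(241 / 100) * m ^ 2 ≤ 4 * u ^ 2 + 255 / 100 * w ^ 2 - m * (487 / 100 * w + 113 / 100 * u) := by
    nlinarith [sq_nonneg (u - 113 / 800 * m), sq_nonneg (w - 487 / 510 * m), sq_nonneg m]
  have hX1 : |x1| ^ 2 ≤ 1 := by rw [sq_abs]; linarith
  have hXa : |x1| ≤ 1 := by
    have := abs_nonneg x1
    nlinarith
  have hSa : -(1 / 2) ≤ S := by linarith
  have hXn := abs_nonneg x1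
  -- coefficient of x1
  have hB : |(2 - 1 / 2 * x + 1 / 2) * S + (4 - 3 / 2 * x - 2)| ≤ 5982 / 10000 - 1634 / 1000 * S := by
    rw [abs_le]
    constructor
    · nlinarith
    · nlinarith
  have hBx : -((5982 / 10000 - 1634 / 1000 * S) * |x1|) ≤ ((2 - 1 / 2 * x + 1 / 2) * S + (4 - 3 / 2 * x - 2)) * x1 := by
    have h : |((2 - 1 / 2 * x + 1 / 2) * S + (4 - 3 / 2 * x - 2)) * x1| ≤ (5982 / 10000 - 1634 / 1000 * S) * |x1| := by
      rw [abs_mul]; exact mul_le_mul_of_nonneg_right hB hXn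
    exact (abs_le.mp h).1
  have hA : -(178 / 1000) - 84 / 1000 * S - 1 / 2 * S ^ 2 ≤
      (5 + x + 2 - 891 / 100) + (2 + 1 / 2 * x - 1) * S - 1 / 2 * S ^ 2 - 39 / 20 * S := by
    nlinarith
  have hC : 479 / 100 * x1 ^ 2 ≤ 691 / 100 * x1 ^ 2 - (2 - 1 / 2 * x + 39 / 40) * x1 ^ 2 := by
    have : 0 ≤ (691 / 100 - (2 - 1 / 2 * x + 39 / 40) - 479 / 100) * x1 ^ 2 :=
      mul_nonneg (by linarith) (sq_nonneg x1)
    linarith
  have hx3 : x1 ^ 2 = |x1| ^ 2 := (sq_abs x1).symm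
  set X := |x1| with hXd
  -- final
  have fin : 0 ≤ -(178 / 1000) - 84 / 1000 * S - 1 / 2 * S ^ 2 - (5982 / 10000 - 1634 / 1000 * S) * X
      + 479 / 100 * X ^ 2 + 3 * m - 241 / 100 * m ^ 2 := by
    have P1 : 0 ≤ (S + m / 2) * (1 / 5 - S) := mul_nonneg (by linarith) (by linarith)
    have P2 : 0 ≤ (m - 1 / 10) * (1 - m) := mul_nonneg (by linarith) (by linarith)
    have P4 : 0 ≤ (m - 1 / 10) * (S + m / 2) := mul_nonneg (by linarith) (by linarith)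
    nlinarith [sq_nonneg (X - (5982 / 10000 - 1634 / 1000 * S) / (958 / 100)), P1, P2, P4]
  nlinarith [fin, hC, hA, hBx, q1, hx2]

theorem hG1 (h₁ : StLbt) (h₂ : StLoc) (h₃ : StPar) : StG1 := by
  intro β P hA h1 hm hS2
  obtain ⟨hsQ, hL⟩ := h₁ β P hA h1 (1 / 2) (1 / 2) 0 0 1 (by norm_num) (by norm_num) (by norm_num) le_rfl
    (by rw [abs_zero]; have := Real.pi_pos; linarith) (by simp)
  obtain ⟨hsE, hmB, hsP, hrB, hqP⟩ := h₃ β P hA h1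
  have hloc := h₂ β P hA h1
  have hv := v_sum h₃ hA h1
  have hm1 := mB_le_one hA h1
  have hb1 := b1_le β
  have hW : Summable fun k : ℕ => ‖uu β k + (starRingEnd ℂ) (ww β k)‖ ^ 2 := by
    refine Summable.of_nonneg_of_le (fun k => by positivity) (fun k => ?_) (hsE.mul_left 2)
    have h := norm_add_le (uu β k) ((starRingEnd ℂ) (ww β k))
    rw [Complex.norm_conj] at h
    have h2 := pow_le_pow_left₀ (norm_nonneg _) h 2
    nlinarith [sq_nonneg (‖uu β k‖ - ‖ww β k‖)]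
  have hsQ' : Summable fun k : ℕ => QB (1 / 2) (1 / 2) 0 0 k (uu β k) (ww β k)
      - 39 / 80 * ‖uu β k + (starRingEnd ℂ) (ww β k)‖ ^ 2 := hsQ.sub (hW.mul_left _)
  have hsum := sum_blk hsQ' hsE 3 (891 / 100) (4 * ‖uu β 0‖ ^ 2 + 255 / 100 * ‖ww β 0‖ ^ 2) (fun k => by
      have := blk_all1 k (uu β k) (ww β k)
      by_cases hk : k = 0
      · subst hk; simpa using this
      · simpa [hk] using this)
  rw [hsQ.tsum_sub (hW.mul_left _), tsum_mul_left] at hsum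
  rw [tsum_mul_left] at hrB
  set Z := ∑' k : ℕ, (‖uu β k‖ ^ 2 + ‖ww β k‖ ^ 2) with hZ
  set SQ := ∑' k : ℕ, QB (1 / 2) (1 / 2) 0 0 k (uu β k) (ww β k) with hSQ
  set V := ∑' k : ℕ, 4 * sgm 0 0 (2 * k + 2) / (2 * k + 2) * (‖cp P k‖ ^ 2 - ‖cm P (k + 1)‖ ^ 2) with hV
  set Y := ∑' k : ℕ, ‖uu β k + (starRingEnd ℂ) (ww β k)‖ ^ 2 with hY
  have hYZ : Y ≤ 2 * Z := by
    rw [hY, hZ, ← tsum_mul_left]
    refine hW.tsum_le_tsum (fun k => ?_) (hsE.mul_left 2)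
    have h := norm_add_le (uu β k) ((starRingEnd ℂ) (ww β k))
    rw [Complex.norm_conj] at h
    have h2 := pow_le_pow_left₀ (norm_nonneg _) h 2
    nlinarith [sq_nonneg (‖uu β k‖ - ‖ww β k‖)]
  have hY0 : 0 ≤ Y := tsum_nonneg fun k => by positivity
  have hZ0 : 0 ≤ Z := tsum_nonneg fun k => by positivity
  have hq0 : 0 ≤ qP P := by
    rw [hqP]
    refine tsum_nonneg fun k => ?_
    have a := (abs_le.1 (re_le (cp P k) (cm P k))).1
    nlinarith [sq_nonneg (‖cp P k‖ - ‖cm P k‖)]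
  have hx2 : b1 β ^ 2 ≤ ‖fc β 0‖ ^ 2 := by
    rw [← sq_abs (b1 β)]; exact pow_le_pow_left₀ (abs_nonneg _) hb1 2
  have hrm : rB β ≤ mB β := by rw [hrB, hmB]; linarith
  have hS1 : -(mB β / 2) ≤ SS β P := by linarith
  have hym : ‖fc β 0‖ ^ 2 ≤ mB β := by rw [hmB]; linarith
  have hg : gg (1 / 2) 0 = 2 + 1 / 2 * Real.sqrt 3 := gg_even _ rfl
  have hgam := (gam_bd 1).1
  have hc : 3 / (2 * (1 + 1 / 2)) * mB β * ‖((gg (1 / 2) 0 + 4 * (1 / 2) : ℝ) : ℂ) * (starRingEnd ℂ) (ww β 0)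
        - (((gg (1 / 2) 0 + 1 / 2) / 3 : ℝ) : ℂ) * uu β 0‖ ≤ mB β * (487 / 100 * ‖ww β 0‖ + 113 / 100 * ‖uu β 0‖) := by
    have hh := s3_hi
    have hl := s3_lo
    have hn : ‖((gg (1 / 2) 0 + 4 * (1 / 2) : ℝ) : ℂ) * (starRingEnd ℂ) (ww β 0)
        - (((gg (1 / 2) 0 + 1 / 2) / 3 : ℝ) : ℂ) * uu β 0‖ ≤ 487 / 100 * ‖ww β 0‖ + 113 / 100 * ‖uu β 0‖ := by
      refine (norm_sub_le _ _).trans ?_
      rw [norm_mul, norm_mul, Complex.norm_real, Complex.norm_real, Complex.norm_conj, hg, Real.norm_eq_abs, Real.norm_eq_abs,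
        abs_of_pos (by linarith), abs_of_pos (by linarith)]
      exact add_le_add (mul_le_mul_of_nonneg_right (by linarith) (norm_nonneg _))
        (mul_le_mul_of_nonneg_right (by linarith) (norm_nonneg _))
    have hm0 : 0 ≤ mB β := by linarith
    have e : 3 / (2 * (1 + 1 / 2)) * mB β = mB β := by ring
    rw [e]
    exact mul_le_mul_of_nonneg_left hn hm0
  have hsc := scal1 (S := SS β P) (m := mB β) (y0 := ‖fc β 0‖) (x1 := b1 β) (u := ‖uu β 0‖) (w := ‖ww β 0‖)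
    hm hm1 hS1 hS2 hb1 hym rfl
  have hZm : Z = mB β - ‖fc β 0‖ ^ 2 := by rw [hmB]; ring
  have hcos : Real.cos (2 * Real.pi / 3 + 2 * 0) = -(1 / 2) := by
    rw [mul_zero, add_zero, show 2 * Real.pi / 3 = Real.pi - Real.pi / 3 by ring, Real.cos_pi_sub, Real.cos_pi_div_three]
  have hgy : 0 ≤ Helper56.RC.gam 0 0 1 * ‖fc β 0‖ ^ 2 := mul_nonneg hgam (sq_nonneg _)
  unfold FSc F1c at hL
  rw [TW0, TW0, hcos, mul_zero, Real.cos_zero] at hL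
  rw [hZm] at hsum
  linarith [hL, hsum, hc, hsc, hv, hloc, hrB, hgy]

end Pool.Agent.Helper37.RC.G1
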