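import Pool.Agent.Helper56.RC.St
import Pool.Agent.Helper87.RC.M_KR6

/-!
# Project RC, module LOC: mean of the pointwise inequality
-/

open MeasureTheory Set Filter Metric

namespace Pool.Agent.Helper37.RC

open Helper49.LT Helper49.RC Helper87.RC Helper44.RC Helper56.RC

variable {β P : ℝ → ℂ}

theorem loc_n1 (t : ℝ) (b p : ℂ) : ‖ee t * f1 b p‖ = ‖f1 b p‖ := by
  rw [norm_mul, norm_ee, one_mul]

theorem loc_n2 (t : ℝ) (b p : ℂ) : ‖ee t * f2 b p‖ = ‖f2 b p‖ := by
  rw [norm_mul, norm_ee, one_mul]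

theorem loc_b1 (h : Adm β P) :
    2 * Real.pi * b1 β = ∫ t in (0 : ℝ)..(2 * Real.pi), (β t).re := by
  have hi : IntervalIntegrable β volume 0 (2 * Real.pi) := intg_of_bddC h.mb (beta_le h) _ _
  have h1 : fc β 0 = (1 / (2 * Real.pi) : ℂ) * ∫ t in (0 : ℝ)..(2 * Real.pi), β t := by
    unfold fc
    congr 1
    apply intervalIntegral.integral_congr
    intro t _
    simp [ee_zero]
  have h2 : (∫ t in (0 : ℝ)..(2 * Real.pi), β t).re = ∫ t in (0 : ℝ)..(2 * Real.pi), (β t).re := by
    have := Complex.reCLM.intervalIntegral_comp_comm hi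
    simpa using this.symm
  have hpi : (Real.pi : ℝ) ≠ 0 := Real.pi_ne_zero
  have h3 : (1 / (2 * Real.pi) : ℂ) = ((1 / (2 * Real.pi) : ℝ) : ℂ) := by push_cast; ring
  unfold b1
  rw [h1, h3, Complex.re_ofReal_mul, h2]
  field_simp

theorem loc_s0 :
    2 * Real.pi * (sN β P 0).re
      = ∫ t in (0 : ℝ)..(2 * Real.pi), (‖f1 (β t) (P t)‖ + ‖f2 (β t) (P t)‖) := by
  have h1 : sN β P 0 = (1 / (2 * Real.pi) : ℂ) *
      ∫ t in (0 : ℝ)..(2 * Real.pi), ((‖f1 (β t) (P t)‖ + ‖f2 (β t) (P t)‖ : ℝ) : ℂ) := by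
    unfold sN
    congr 1
    apply intervalIntegral.integral_congr
    intro t _
    simp only [nn_zero, loc_n1, loc_n2]
    push_cast
    rfl
  have hpi : (Real.pi : ℝ) ≠ 0 := Real.pi_ne_zero
  have h3 : (1 / (2 * Real.pi) : ℂ) = ((1 / (2 * Real.pi) : ℝ) : ℂ) := by push_cast; ring
  rw [h1, h3, Complex.re_ofReal_mul, intervalIntegral.integral_ofReal, Complex.ofReal_re]
  field_simp

theorem hLOC (h : StPt) : StLoc := by
  intro β P hA hb
  have hpi : 0 < Real.pi := Real.pi_pos
  have hPm : Measurable (fun t => -P t) := hA.mp.neg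
  -- the two norms
  have m1' : Measurable (fun t => ‖f1 (β t) (P t)‖) := by
    have := (m1 hA.mb hA.mp).norm
    simpa only [loc_n1] using this
  have m2' : Measurable (fun t => ‖f2 (β t) (P t)‖) := by
    have := (m2 hA.mb hA.mp).norm
    simpa only [loc_n2] using this
  have b1' : ∀ t, |‖f1 (β t) (P t)‖| ≤ 6 := by
    intro t
    rw [abs_norm, ← loc_n1 t]
    exact f1_le (beta_le hA t) (P_le hA t) t
  have b2' : ∀ t, |‖f2 (β t) (P t)‖| ≤ 6 := by
    intro t
    rw [abs_norm, ← loc_n2 t]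
    exact f2_le (beta_le hA t) (P_le hA t) t
  have i1 : ∀ a b, IntervalIntegrable (fun t => ‖f1 (β t) (P t)‖) volume a b :=
    fun a b => intg_of_bdd m1' b1' a b
  have i2 : ∀ a b, IntervalIntegrable (fun t => ‖f2 (β t) (P t)‖) volume a b :=
    fun a b => intg_of_bdd m2' b2' a b
  have e1 : ∀ t, ‖f1 (β t) (-P t)‖ = ‖f1 (β (t + Real.pi)) (P (t + Real.pi))‖ := by
    intro t; rw [hA.perb, hA.perp]
  have e2 : ∀ t, ‖f2 (β t) (-P t)‖ = ‖f2 (β (t + Real.pi)) (P (t + Real.pi))‖ := by
    intro t; rw [hA.perb, hA.perp]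
  have p2 : ∀ t, β (t + 2 * Real.pi) = β t ∧ P (t + 2 * Real.pi) = P t := by
    intro t
    have : t + 2 * Real.pi = (t + Real.pi) + Real.pi := by ring
    rw [this, hA.perb, hA.perb, hA.perp, hA.perp, neg_neg]
    exact ⟨rfl, rfl⟩
  have per1 : Function.Periodic (fun t => ‖f1 (β t) (P t)‖) (2 * Real.pi) := by
    intro t
    simp only [(p2 t).1, (p2 t).2]
  have per2 : Function.Periodic (fun t => ‖f2 (β t) (P t)‖) (2 * Real.pi) := by
    intro t
    simp only [(p2 t).1, (p2 t).2]
  have s1 : ∫ t in (0 : ℝ)..(2 * Real.pi), ‖f1 (β (t + Real.pi)) (P (t + Real.pi))‖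
      = ∫ t in (0 : ℝ)..(2 * Real.pi), ‖f1 (β t) (P t)‖ := int_shift per1
  have s2 : ∫ t in (0 : ℝ)..(2 * Real.pi), ‖f2 (β (t + Real.pi)) (P (t + Real.pi))‖
      = ∫ t in (0 : ℝ)..(2 * Real.pi), ‖f2 (β t) (P t)‖ := int_shift per2
  -- integrability of the other functions
  have ire : IntervalIntegrable (fun t => (β t).re) volume 0 (2 * Real.pi) :=
    intg_of_bdd (Complex.measurable_re.comp hA.mb)
      (fun t => (Complex.abs_re_le_norm _).trans (beta_le hA t)) _ _
  have ire2 : IntervalIntegrable (fun t => (β t).re ^ 2) volume 0 (2 * Real.pi) := by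
    refine intg_of_bdd (C := 4) ((Complex.measurable_re.comp hA.mb).pow_const 2) ?_ _ _
    intro t
    have := (Complex.abs_re_le_norm (β t)).trans (beta_le hA t)
    show |(β t).re ^ 2| ≤ 4
    rw [abs_pow]
    nlinarith [abs_nonneg (β t).re]
  have iq : IntervalIntegrable (fun t => 3 / 4 * (P t).re ^ 2 + 1 / 4 * (P t).im ^ 2) volume 0
      (2 * Real.pi) := by
    refine intg_of_bdd (C := 9) ?_ ?_ _ _
    · exact (((Complex.measurable_re.comp hA.mp).pow_const 2).const_mul _).add
        (((Complex.measurable_im.comp hA.mp).pow_const 2).const_mul _)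
    · intro t
      have h1 := (Complex.abs_re_le_norm (P t)).trans (P_le hA t)
      have h2 := (Complex.abs_im_le_norm (P t)).trans (P_le hA t)
      have h3 : (P t).re ^ 2 ≤ 9 := by
        rw [← sq_abs]; nlinarith [abs_nonneg (P t).re]
      have h4 : (P t).im ^ 2 ≤ 9 := by
        rw [← sq_abs]; nlinarith [abs_nonneg (P t).im]
      rw [abs_of_nonneg (by positivity)]
      linarith
  -- the pointwise inequality, integrated
  have key : ∫ t in (0 : ℝ)..(2 * Real.pi), (2 - (β t).re
        + 94 / 100 * (3 / 4 * (P t).re ^ 2 + 1 / 4 * (P t).im ^ 2) - 1 / 2 * (β t).re ^ 2)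
      ≤ ∫ t in (0 : ℝ)..(2 * Real.pi), 1 / 2 * (‖f1 (β t) (P t)‖
          + ‖f1 (β (t + Real.pi)) (P (t + Real.pi))‖ + ‖f2 (β t) (P t)‖
          + ‖f2 (β (t + Real.pi)) (P (t + Real.pi))‖) := by
    apply intervalIntegral.integral_mono_on (by positivity)
    · exact ((intervalIntegrable_const.sub ire).add (iq.const_mul _)).sub (ire2.const_mul _)
    · have j1 : IntervalIntegrable (fun t => ‖f1 (β (t + Real.pi)) (P (t + Real.pi))‖) volume 0
          (2 * Real.pi) := intg_of_bdd (m1'.comp (measurable_add_const _)) (fun t => b1' _) _ _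
      have j2 : IntervalIntegrable (fun t => ‖f2 (β (t + Real.pi)) (P (t + Real.pi))‖) volume 0
          (2 * Real.pi) := intg_of_bdd (m2'.comp (measurable_add_const _)) (fun t => b2' _) _ _
      exact ((((i1 _ _).add j1).add (i2 _ _)).add j2).const_mul _
    · intro t _
      have := h (β t) (P t) (hb t) (hA.reg t)
      rw [e1, e2] at this
      exact this
  have j1 : IntervalIntegrable (fun t => ‖f1 (β (t + Real.pi)) (P (t + Real.pi))‖) volume 0
      (2 * Real.pi) := intg_of_bdd (m1'.comp (measurable_add_const _)) (fun t => b1' _) _ _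
  have j2 : IntervalIntegrable (fun t => ‖f2 (β (t + Real.pi)) (P (t + Real.pi))‖) volume 0
      (2 * Real.pi) := intg_of_bdd (m2'.comp (measurable_add_const _)) (fun t => b2' _) _ _
  rw [intervalIntegral.integral_sub ((intervalIntegrable_const.sub ire).add (iq.const_mul _))
      (ire2.const_mul _),
    intervalIntegral.integral_add (intervalIntegrable_const.sub ire) (iq.const_mul _),
    intervalIntegral.integral_sub intervalIntegrable_const ire,
    intervalIntegral.integral_const, intervalIntegral.integral_const_mul,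
    intervalIntegral.integral_const_mul, intervalIntegral.integral_const_mul,
    intervalIntegral.integral_add (((i1 _ _).add j1).add (i2 _ _)) j2,
    intervalIntegral.integral_add ((i1 _ _).add j1) (i2 _ _),
    intervalIntegral.integral_add (i1 _ _) j1, s1, s2] at key
  have hs := loc_s0 (β := β) (P := P)
  rw [intervalIntegral.integral_add (i1 _ _) (i2 _ _)] at hs
  have hb1 := loc_b1 hA
  unfold SS qP rB
  have hc : (1 / (2 * Real.pi)) * (2 * Real.pi) = 1 := by field_simp
  set A := ∫ t in (0 : ℝ)..(2 * Real.pi), (3 / 4 * (P t).re ^ 2 + 1 / 4 * (P t).im ^ 2)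
  set B := ∫ t in (0 : ℝ)..(2 * Real.pi), (β t).re ^ 2
  set c := 1 / (2 * Real.pi)
  have hcp : 0 < c := by positivity
  have k2 := mul_le_mul_of_nonneg_left key hcp.le
  simp only [smul_eq_mul, sub_zero] at k2
  have e3 : (sN β P 0).re = c * (2 * Real.pi * (sN β P 0).re) := by
    rw [← mul_assoc, hc, one_mul]
  have e4 : b1 β = c * (2 * Real.pi * b1 β) := by
    rw [← mul_assoc, hc, one_mul]
  rw [e3, e4, hs, hb1]
  have e5 : c * (2 * Real.pi * 2) = 2 := by rw [← mul_assoc, hc, one_mul]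
  nlinarith [k2, e5]

end Pool.Agent.Helper37.RC
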