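import Pool.Agent.Helper56.RC.StF

/-!
# Module TRG of the certificate for `κ = 99/100` (MP_b21509): table of cosines
-/

set_option autoImplicit false

namespace Pool.Agent.Helper37.RC.TRG

open Helper56.RC

/-- one rotation step by `π/120`, in units of `10⁻⁹` -/
def stepI (p : ℤ × ℤ) : ℤ × ℤ :=
  ((p.1 * 999657305 - p.2 * 26176948) / 10 ^ 9, (p.1 * 26176948 + p.2 * 999657305) / 10 ^ 9)

def W : ℕ → ℤ × ℤ
  | 0 => (10 ^ 9, 0)
  | (k + 1) => stepI (W k)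

theorem table : ∀ k ∈ List.range 61, |1000 * c0.getD k 0 - (W k).1| ≤ 2000 := by
  decide +kernel

/-- the angle -/
noncomputable def x : ℝ := Real.pi / 120

noncomputable def z : ℂ := ⟨Real.cos x, Real.sin x⟩

noncomputable def w : ℂ := ⟨999657305 / 10 ^ 9, 26176948 / 10 ^ 9⟩

noncomputable def ww (k : ℕ) : ℂ := ⟨(W k).1 / 10 ^ 9, (W k).2 / 10 ^ 9⟩

theorem norm_le_add (u : ℂ) {a b : ℝ} (h1 : |u.re| ≤ a) (h2 : |u.im| ≤ b) : ‖u‖ ≤ a + b :=
  (Complex.norm_le_abs_re_add_abs_im u).trans (add_le_add h1 h2)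

theorem z_norm : ‖z‖ = 1 := by
  have h : z = Complex.exp (x * Complex.I) := by
    apply Complex.ext
    · rw [Complex.exp_ofReal_mul_I_re]; rfl
    · rw [Complex.exp_ofReal_mul_I_im]; rfl
  rw [h, Complex.norm_exp_ofReal_mul_I]

theorem z_pow (k : ℕ) : z ^ k = ⟨Real.cos (k * x), Real.sin (k * x)⟩ := by
  induction k with
  | zero => apply Complex.ext <;> simp
  | succ k ih =>
    rw [pow_succ, ih]
    push_cast
    rw [add_mul, one_mul, Real.cos_add, Real.sin_add]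
    apply Complex.ext
    · simp [z, Complex.mul_re]
    · simp [z, Complex.mul_im]; ring

theorem zw : ‖z - w‖ ≤ 7 / 10 ^ 8 := by
  have hp1 := Real.pi_gt_d6
  have hp2 := Real.pi_lt_d6
  have hx1 : 3.141592 / 120 < x := by unfold x; linarith
  have hx2 : x < 3.141593 / 120 := by unfold x; linarith
  have hx0 : 0 < x := by linarith
  have habs : |x| = x := abs_of_pos hx0
  have hle : |x| ≤ 1 := by rw [habs]; linarith
  have hx4 : x ^ 4 ≤ (3.141593 / 120) ^ 4 := pow_le_pow_left₀ hx0.le hx2.le 4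
  have hx5 : x ^ 5 ≤ (3.141593 / 120) ^ 5 := pow_le_pow_left₀ hx0.le hx2.le 5
  have hx3 : x ^ 3 ≤ (3.141593 / 120) ^ 3 := pow_le_pow_left₀ hx0.le hx2.le 3
  have hx3' : (3.141592 / 120) ^ 3 ≤ x ^ 3 := pow_le_pow_left₀ (by norm_num) hx1.le 3
  have hx2' : x ^ 2 ≤ (3.141593 / 120) ^ 2 := pow_le_pow_left₀ hx0.le hx2.le 2
  have hx2'' : (3.141592 / 120) ^ 2 ≤ x ^ 2 := pow_le_pow_left₀ (by norm_num) hx1.le 2
  have hc := Real.cos_bound hle
  have hs := Real.sin_bound hle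
  rw [habs] at hc hs
  rw [abs_le] at hc hs
  have h1 : |(z - w).re| ≤ 3 / 10 ^ 8 := by
    change |Real.cos x - 999657305 / 10 ^ 9| ≤ _
    rw [abs_le]
    constructor <;> norm_num at * <;> linarith [hc.1, hc.2]
  have h2 : |(z - w).im| ≤ 4 / 10 ^ 8 := by
    change |Real.sin x - 26176948 / 10 ^ 9| ≤ _
    rw [abs_le]
    constructor <;> norm_num at * <;> linarith [hs.1, hs.2]
  calc ‖z - w‖ ≤ 3 / 10 ^ 8 + 4 / 10 ^ 8 := norm_le_add _ h1 h2
    _ ≤ 7 / 10 ^ 8 := by norm_num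

theorem div_err (n : ℤ) : |(n : ℝ) / 10 ^ 9 - ((n / 10 ^ 9 : ℤ) : ℝ)| ≤ 1 := by
  have h1 : (n / 10 ^ 9) * 10 ^ 9 ≤ n := Int.ediv_mul_le n (by norm_num)
  have h2 : n < (n / 10 ^ 9 + 1) * 10 ^ 9 := Int.lt_ediv_add_one_mul_self n (by norm_num)
  have h1' : ((n / 10 ^ 9 : ℤ) : ℝ) * 10 ^ 9 ≤ n := by exact_mod_cast h1
  have h2' : (n : ℝ) < (((n / 10 ^ 9 : ℤ) : ℝ) + 1) * 10 ^ 9 := by exact_mod_cast h2
  rw [abs_le]
  constructor
  · rw [le_sub_iff_add_le, le_div_iff₀ (by norm_num)]; linarith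
  · rw [sub_le_iff_le_add, div_le_iff₀ (by norm_num)]; linarith

theorem step_err (k : ℕ) : ‖w * ww k - ww (k + 1)‖ ≤ 2 / 10 ^ 9 := by
  have h1 : |(w * ww k - ww (k + 1)).re| ≤ 1 / 10 ^ 9 := by
    have h := div_err ((W k).1 * 999657305 - (W k).2 * 26176948)
    have h2 : (w * ww k - ww (k + 1)).re = ((((W k).1 * 999657305 - (W k).2 * 26176948 : ℤ) : ℝ) / 10 ^ 9
        - ((((W k).1 * 999657305 - (W k).2 * 26176948) / 10 ^ 9 : ℤ) : ℝ)) / 10 ^ 9 := by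
      rw [Complex.sub_re, Complex.mul_re]
      change 999657305 / 10 ^ 9 * (((W k).1 : ℝ) / 10 ^ 9) - 26176948 / 10 ^ 9 * (((W k).2 : ℝ) / 10 ^ 9)
        - ((((W k).1 * 999657305 - (W k).2 * 26176948) / 10 ^ 9 : ℤ) : ℝ) / 10 ^ 9 = _
      push_cast
      ring
    rw [h2, abs_div, abs_of_pos (show (0 : ℝ) < 10 ^ 9 by norm_num)]
    exact div_le_div_of_nonneg_right h (by norm_num)
  have h1' : |(w * ww k - ww (k + 1)).im| ≤ 1 / 10 ^ 9 := by
    have h := div_err ((W k).1 * 26176948 + (W k).2 * 999657305)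
    have h2 : (w * ww k - ww (k + 1)).im = ((((W k).1 * 26176948 + (W k).2 * 999657305 : ℤ) : ℝ) / 10 ^ 9
        - ((((W k).1 * 26176948 + (W k).2 * 999657305) / 10 ^ 9 : ℤ) : ℝ)) / 10 ^ 9 := by
      rw [Complex.sub_im, Complex.mul_im]
      change 999657305 / 10 ^ 9 * (((W k).2 : ℝ) / 10 ^ 9) + 26176948 / 10 ^ 9 * (((W k).1 : ℝ) / 10 ^ 9)
        - ((((W k).1 * 26176948 + (W k).2 * 999657305) / 10 ^ 9 : ℤ) : ℝ) / 10 ^ 9 = _
      push_cast
      ring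
    rw [h2, abs_div, abs_of_pos (show (0 : ℝ) < 10 ^ 9 by norm_num)]
    exact div_le_div_of_nonneg_right h (by norm_num)
  calc ‖w * ww k - ww (k + 1)‖ ≤ 1 / 10 ^ 9 + 1 / 10 ^ 9 := norm_le_add _ h1 h1'
    _ = 2 / 10 ^ 9 := by norm_num

theorem err (k : ℕ) (hk : k ≤ 60) : ‖z ^ k - ww k‖ ≤ k * (8 / 10 ^ 8) := by
  induction k with
  | zero =>
    have h : z ^ 0 - ww 0 = 0 := by
      rw [pow_zero]
      apply Complex.ext
      · norm_num [ww, W]
      · norm_num [ww, W]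
    rw [h]; simp
  | succ k ih =>
    have ih' := ih (by omega)
    have hk' : (k : ℝ) ≤ 60 := by exact_mod_cast (by omega : k ≤ 60)
    have hw : ‖ww k‖ ≤ 1 + 1 / 10 ^ 5 := by
      have h1 : ‖ww k‖ ≤ ‖z ^ k‖ + ‖z ^ k - ww k‖ := by
        have := norm_sub_norm_le (ww k) (z ^ k)
        rw [norm_sub_rev] at this
        linarith
      rw [norm_pow, z_norm, one_pow] at h1
      have h2 : (k : ℝ) * (8 / 10 ^ 8) ≤ 60 * (8 / 10 ^ 8) :=
        mul_le_mul_of_nonneg_right hk' (by norm_num)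
      have h3 : (60 : ℝ) * (8 / 10 ^ 8) ≤ 1 / 10 ^ 5 := by norm_num
      linarith
    have h : z ^ (k + 1) - ww (k + 1) = z * (z ^ k - ww k) + (z - w) * ww k + (w * ww k - ww (k + 1)) := by ring
    have h3 : ‖z ^ (k + 1) - ww (k + 1)‖ ≤ ‖z ^ k - ww k‖ + 7 / 10 ^ 8 * (1 + 1 / 10 ^ 5) + 2 / 10 ^ 9 := by
      rw [h]
      refine (norm_add₃_le).trans ?_
      rw [norm_mul, norm_mul, z_norm, one_mul]
      have := mul_le_mul zw hw (norm_nonneg _) (by norm_num)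
      have := step_err k
      linarith
    push_cast
    have : (7 / 10 ^ 8 * (1 + 1 / 10 ^ 5) + 2 / 10 ^ 9 : ℝ) ≤ 8 / 10 ^ 8 := by norm_num
    linarith

theorem small (k : ℕ) (hk : k ≤ 60) : |Real.cos (k * Real.pi / 120) - ((c0.getD k 0 : ℤ) : ℝ) / 10 ^ 6| ≤ 1 / 10 ^ 5 := by
  have h1 := err k hk
  have h2 := (Complex.abs_re_le_norm (z ^ k - ww k)).trans h1
  rw [z_pow] at h2
  change |Real.cos (k * x) - (W k).1 / 10 ^ 9| ≤ _ at h2
  have h3 := table k (List.mem_range.mpr (by omega))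
  have h4 : |1000 * ((c0.getD k 0 : ℤ) : ℝ) - ((W k).1 : ℝ)| ≤ 2000 := by exact_mod_cast h3
  have hk' : (k : ℝ) ≤ 60 := by exact_mod_cast hk
  have h5 : (k : ℝ) * x = k * Real.pi / 120 := by unfold x; ring
  rw [h5] at h2
  have h6 : (k : ℝ) * (8 / 10 ^ 8) ≤ 60 * (8 / 10 ^ 8) := mul_le_mul_of_nonneg_right hk' (by norm_num)
  have h7 := h2.trans h6
  clear h1 h2 h3 h5 h6 hk'
  rw [abs_le] at h4 h7 ⊢
  constructor <;> norm_num at h4 h7 ⊢ <;> linarith [h7.1, h7.2, h4.1, h4.2]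

theorem hTRG : StTrg := by
  intro k
  have hr0 : 0 ≤ k % 240 := Int.emod_nonneg k (by norm_num)
  have hr1 : k % 240 < 240 := Int.emod_lt_of_pos k (by norm_num)
  obtain ⟨r, hr⟩ := Int.eq_ofNat_of_zero_le hr0
  have hr2 : r < 240 := by omega
  have hk : k = (k / 240) * 240 + r := by
    have := Int.emod_add_mul_ediv k 240
    rw [hr] at this
    linarith
  have hcos : Real.cos (k * Real.pi / 120) = Real.cos ((r : ℝ) * Real.pi / 120) := by
    have h : (k : ℝ) = (k / 240 : ℤ) * 240 + r := by exact_mod_cast hk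
    rw [h, show (((k / 240 : ℤ) : ℝ) * 240 + r) * Real.pi / 120 = (r : ℝ) * Real.pi / 120 + (k / 240 : ℤ) * (2 * Real.pi) by ring,
      Real.cos_add_int_mul_two_pi]
  have hcT : cT k = if r ≤ 60 then c0.getD r 0 else if r ≤ 120 then -(c0.getD (120 - r) 0)
      else if r ≤ 180 then -(c0.getD (r - 120) 0) else c0.getD (240 - r) 0 := by
    unfold cT
    rw [hr]
    rfl
  rw [hcos, hcT]
  split_ifs with h1 h2 h3
  · exact small r h1
  · have h := small (120 - r) (by omega)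
    rw [Nat.cast_sub (by omega : r ≤ 120)] at h
    rw [show (((120 : ℕ) : ℝ) - (r : ℝ)) * Real.pi / 120 = Real.pi - (r : ℝ) * Real.pi / 120 by push_cast; ring, Real.cos_pi_sub] at h
    rw [show Real.cos ((r : ℝ) * Real.pi / 120) - ((-(c0.getD (120 - r) 0) : ℤ) : ℝ) / 10 ^ 6
      = -(-Real.cos ((r : ℝ) * Real.pi / 120) - ((c0.getD (120 - r) 0 : ℤ) : ℝ) / 10 ^ 6) by push_cast; ring, abs_neg]
    exact h
  · have h := small (r - 120) (by omega)
    rw [Nat.cast_sub (by omega : 120 ≤ r)] at h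
    rw [show ((r : ℝ) - ((120 : ℕ) : ℝ)) * Real.pi / 120 = (r : ℝ) * Real.pi / 120 - Real.pi by push_cast; ring, Real.cos_sub_pi] at h
    rw [show Real.cos ((r : ℝ) * Real.pi / 120) - ((-(c0.getD (r - 120) 0) : ℤ) : ℝ) / 10 ^ 6
      = -(-Real.cos ((r : ℝ) * Real.pi / 120) - ((c0.getD (r - 120) 0 : ℤ) : ℝ) / 10 ^ 6) by push_cast; ring, abs_neg]
    exact h
  · have h := small (240 - r) (by omega)
    rw [Nat.cast_sub (by omega : r ≤ 240)] at h
    rw [show (((240 : ℕ) : ℝ) - (r : ℝ)) * Real.pi / 120 = 2 * Real.pi - (r : ℝ) * Real.pi / 120 by push_cast; ring, Real.cos_two_pi_sub] at h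
    exact h

end Pool.Agent.Helper37.RC.TRG
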